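import Pool.Agent.Helper82.MH.Final
import Pool.Agent.Helper2.Mah.Final

/-!
# Lower bounds of the `L^p` Mahler volumes of all convex bodies

For every convex body `K` of `ℝⁿ`, in any position, and every `p ∈ (0, ∞]`, the `L^p` Mahler volume is
at least `(5/2)ⁿ`, and at least `(9/8) (n + 1) 2ⁿ` if `n ≥ 2`.  If `-(K - c) ⊆ β (K - c)` for a point
`c` and `β ≥ 1` (this always holds with `β = n`), it is also at least `(4 √((β + 1) / (3 β - 1)))ⁿ`,
which is `4ⁿ` (Mahler's inequality) for `β = 1`.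
-/

set_option autoImplicit false

noncomputable section

open MeasureTheory
open scoped ENNReal

namespace Pool.Agent.Results.MP_5f4cdd_gt.AsymmetryLowerBound

variable {n : ℕ}

/-- convex bodies of `ℝⁿ` (in any position) -/
def Body (K : Set (Fin n → ℝ)) : Prop :=
  Convex ℝ K ∧ IsCompact K ∧ (interior K).Nonempty

/-- the `L^p` Mahler volume `|L| ∫ exp (-h_{p,L}(y)) dy` for real `p > 0`, where
`exp (-h_{p,L}(y))` is the power `-1/p` of the average of `exp (p ⟨x, y⟩)` over `L` -/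
def Mp (p : ℝ) (L : Set (Fin n → ℝ)) : ℝ≥0∞ := volume L *
  ∫⁻ y : Fin n → ℝ, ENNReal.ofReal
    (((∫ x in L, Real.exp (p * ∑ i, x i * y i)) / (volume L).toReal) ^ (-(1 / p)))

/-- the Mahler volume `|L| ∫ exp (-h_L(y)) dy` (`p = ∞`), with the support function `h_L` -/
def Minf (L : Set (Fin n → ℝ)) : ℝ≥0∞ := volume L *
  ∫⁻ y : Fin n → ℝ, ENNReal.ofReal
    (Real.exp (-(sSup ((fun x : Fin n → ℝ => ∑ i, x i * y i) '' L))))

/-- the Minkowski asymmetry of `K` is at most `β`: there is a point `c` with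
`-(K - c) ⊆ β (K - c)` -/
def AsymLe (K : Set (Fin n → ℝ)) (β : ℝ) : Prop :=
  ∃ c : Fin n → ℝ, ∀ x ∈ K, c - β⁻¹ • (x - c) ∈ K

/-- all the `L^p` Mahler volumes of `K`, `p ∈ (0, ∞]`, are at least `r` -/
def AllGe (K : Set (Fin n → ℝ)) (r : ℝ) : Prop :=
  ENNReal.ofReal r ≤ Minf K ∧ ∀ p : ℝ, 0 < p → ENNReal.ofReal r ≤ Mp p K

/-- **The lower bound of the `L^p` Mahler volumes**: for all convex bodies `K` of `ℝⁿ`, in any
position, and all `p ∈ (0, ∞]`, it is the largest of `(5/2)ⁿ`, of `(9/8) (n + 1) 2ⁿ` (for `n ≥ 2`) and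
of `(4 √((β + 1) / (3 β - 1)))ⁿ` for every `β ≥ 1` which bounds the asymmetry of `K`; `β = n` is always
such a number. -/
theorem result (n : ℕ) (hn : 1 ≤ n) (K : Set (Fin n → ℝ)) (hK : Body K) :
    AsymLe K n ∧ ∀ β : ℝ, 1 ≤ β → AsymLe K β →
      AllGe K (max ((5 / 2) ^ n) ((4 * Real.sqrt ((β + 1) / (3 * β - 1))) ^ n)) ∧
      (2 ≤ n → AllGe K (9 / 8 * (n + 1) * 2 ^ n)) := by
  obtain ⟨hv, hc, hi⟩ := hK
  have hp : ∀ p : ℝ, 0 < p → Minf K ≤ Mp p K := by
    intro p hp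
    refine mul_le_mul_right (lintegral_mono fun y => ENNReal.ofReal_le_ofReal ?_) _
    exact Helper82.Mah.lp_le hc hi hp y
  have hall : ∀ r : ℝ, ENNReal.ofReal r ≤ Minf K → AllGe K r :=
    fun r hr => ⟨hr, fun p hp0 => hr.trans (hp p hp0)⟩
  refine ⟨Helper82.Mah.exists_center hn hc hv hi, ?_⟩
  rintro β hβ ⟨c, hsym⟩
  refine ⟨hall _ ?_, fun hn2 => hall _ (Helper2.Mah.minf_general hc hv hi hn2)⟩
  rw [ENNReal.ofReal_max]
  exact max_le (MH.Helper82.minf52 MH.Helper82.final hc hv hi)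
    (Helper82.Mah.minf hc hv hi hβ hsym)

end Pool.Agent.Results.MP_5f4cdd_gt.AsymmetryLowerBound

end
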